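import Pool.Agent.H5.DPG.Stmts

set_option autoImplicit false

namespace Pool.DPG

open Filter TMLib Pool.PG

theorem fin_ptime0 : PTime (fun g : Game => msk g.length fun _ => true) := by
  have h : (fun g : Game => msk g.length fun _ => true) = fun g : Game => g.map fun _ => true := by
    funext g
    unfold msk
    rw [List.map_const', List.map_const', List.length_range]
  rw [h]
  fun_prop

theorem fin_ptime (hPLV : PLVStmt) (hPBR : PBRStmt) (c : ℕ) : PTime (sv c) := by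
  have h1 : PTime (fun p : Game × List Bool => bru c p.1 p.2) := hPBR c
  have h2 := hPLV c (bru c) h1
  have h3 := hPLV c (lev c (bru c)) h2
  have h4 : PTime (fun g : Game => g) := by fun_prop
  have h5 := h4.pair fin_ptime0
  have h6 := h3.comp h5
  unfold sv
  exact h6

theorem fin_sq (n : ℕ) : n * n ≤ 2 * 2 ^ n := by
  induction n with
  | zero => simp
  | succ n ih =>
    rcases Nat.lt_or_ge n 3 with h | h
    · interval_cases n <;> norm_num
    · have : (n + 1) * (n + 1) ≤ 2 * (n * n) := by nlinarith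
      rw [pow_succ]
      omega

theorem fin_K0 (a b m : ℕ) (h : a ≤ b ^ 2) : a ^ m ≤ b ^ (2 * m) := by
  rw [pow_mul]
  exact Nat.pow_le_pow_left h m

theorem fin_K (n l m : ℕ) (h : 2 ^ l ≤ (n + 2) ^ 2) : 2 ^ (m * l) ≤ (n + 2) ^ (2 * m) := by
  rw [mul_comm m l, pow_mul]
  exact fin_K0 _ _ m h

theorem fin_c1 (n l N M : ℕ) (hn : 0 < n) (hnl : n < 2 ^ l) (hl : 1 ≤ l)
    (h : 2 ^ (12 * l * l) * N ≤ 2 * n * M) : n * N ≤ 2 * M := by
  have e : n * n ≤ 2 ^ (12 * l * l) := by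
    calc n * n ≤ 2 ^ l * 2 ^ l := Nat.mul_le_mul hnl.le hnl.le
      _ = 2 ^ (l + l) := by rw [pow_add]
      _ ≤ 2 ^ (12 * l * l) := Nat.pow_le_pow_right (by norm_num) (by nlinarith)
  have h' : (n * n) * (n * N) ≤ (n * n) * (2 * M) := by
    calc (n * n) * (n * N) ≤ 2 ^ (12 * l * l) * (n * N) := Nat.mul_le_mul_right _ e
      _ = n * (2 ^ (12 * l * l) * N) := by ring
      _ ≤ n * (2 * n * M) := Nat.mul_le_mul_left _ h
      _ = (n * n) * (2 * M) := by ring
  exact Nat.le_of_mul_le_mul_left h' (Nat.mul_pos hn hn)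

theorem fin_c2 (n N M : ℕ) (h : 2 ^ n * N ≤ n * M) : n * N ≤ 2 * M := by
  have h' : 2 ^ n * (n * N) ≤ 2 ^ n * (2 * M) := by
    calc 2 ^ n * (n * N) = n * (2 ^ n * N) := by ring
      _ ≤ n * (n * M) := Nat.mul_le_mul_left _ h
      _ = (n * n) * M := by ring
      _ ≤ (2 * 2 ^ n) * M := Nat.mul_le_mul_right _ (fin_sq n)
      _ = 2 ^ n * (2 * M) := by ring
  exact Nat.le_of_mul_le_mul_left h' (pow_pos (by norm_num) n)

theorem fin_l (n : ℕ) (hn : 0 < n) : n < 2 ^ (Nat.log 2 n + 1) ∧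
    2 ^ (Nat.log 2 n + 1) ≤ (n + 2) ^ 2 := by
  refine ⟨Nat.lt_pow_succ_log_self (by norm_num) n, ?_⟩
  have h := Nat.pow_log_le_self 2 (x := n) (by omega)
  rw [pow_succ]
  nlinarith

open Classical in
theorem fin_sub (hLV2 : LV2Stmt) (hCMG : CMGStmt) (n l m : ℕ) (hn : 0 < n) (hl : 1 ≤ l)
    (hm : 2 ^ (72 * (4 * l)) ≤ (n + 2) ^ m) :
    (Finset.univ.filter fun E : Fin n → Fin n → Bool =>
      ∃ (o : Fin n → Bool) (p : Fin n → ℕ), sv m (Pool.PG.cmp (dgame o p E)) = []).card ≤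
    (Finset.univ.filter fun E : Fin n → Fin n → Bool => ¬ DenE (4 * l) E).card +
    (Finset.univ.filter fun E : Fin n → Fin n → Bool => ∃ v, ∀ w, E v w = false).card := by
  refine le_trans (Finset.card_le_card ?_) (Finset.card_union_le _ _)
  intro E hE
  rw [Finset.mem_filter] at hE
  rw [Finset.mem_union, Finset.mem_filter, Finset.mem_filter]
  obtain ⟨o, p, hE⟩ := hE.2
  by_contra hcon
  rw [not_or] at hcon
  obtain ⟨hd, hs⟩ := hcon
  have hd' : DenE (4 * l) E := by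
    by_contra h
    exact hd ⟨Finset.mem_univ _, h⟩
  have hs' : ∀ v, ∃ w, E v w = true := by
    intro v
    by_contra hv
    refine hs ⟨Finset.mem_univ _, v, fun w => ?_⟩
    by_contra hw
    exact hv ⟨w, by simpa using hw⟩
  obtain ⟨c1, c2, c3⟩ := hCMG n (4 * l) o p E hd' hs'
  refine hLV2 m (Pool.PG.cmp (dgame o p E)) (4 * l) (by omega) (by omega) c2 ?_ c3 hE
  rw [c1]
  exact hm

/-- Row `FIN`: the theorem, with `A g = sv 576 (cmp g)`. -/
theorem fin_thm (hTOP : TOPStmt) (hLV2 : LV2Stmt) (hPLV : PLVStmt) (hPBR : PBRStmt)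
    (hCMG : CMGStmt) (hCDN : CDNStmt) (hCNS : CNSStmt) (hBOT : Pool.PG.BOTStmt)
    (hCMW : Pool.PG.CMWStmt) : FINStmt := by
  classical
  refine ⟨fun g => sv 576 (Pool.PG.cmp g), hBOT.1 (List Bool) (sv 576) (fin_ptime hPLV hPBR 576),
    ?_, 4, ?_⟩
  · intro g hg hne
    obtain ⟨hv, hw⟩ := hCMW g hg
    have hlen : (Pool.PG.cmp g).length = g.length := by simp [Pool.PG.cmp]
    obtain ⟨h1, h2⟩ := hTOP 576 (Pool.PG.cmp g) hv hne
    refine ⟨h1.trans hlen, fun v hvl => ?_⟩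
    exact (hw v hvl _).1 (h2 v (by rw [hlen]; exact hvl))
  · intro n
    rcases Nat.eq_zero_or_pos n with hn | hn
    · subst hn
      simp
    obtain ⟨hnl, hl2⟩ := fin_l n hn
    generalize Nat.log 2 n = k at hnl hl2
    have hK : 2 ^ (72 * (4 * (k + 1))) ≤ (n + 2) ^ 576 := by
      have := fin_K n (k + 1) 288 hl2
      rwa [show 72 * (4 * (k + 1)) = 288 * (k + 1) by ring]
    have h0 := fin_sub hLV2 hCMG n (k + 1) 576 hn (by omega) hK
    have h1 := fin_c1 n (k + 1) _ _ hn hnl (by omega) (hCDN n (k + 1) (by omega) hnl)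
    have h2 := fin_c2 n _ _ (hCNS n)
    have h3 := Nat.mul_le_mul_left n h0
    rw [Nat.mul_add] at h3
    have h4 := h3.trans (Nat.add_le_add h1 h2)
    have h5 : 2 * 2 ^ (n * n) + 2 * 2 ^ (n * n) = 4 * 2 ^ (n * n) := by ring
    rw [h5] at h4
    have h6 : ((n * (Finset.univ.filter fun E : Fin n → Fin n → Bool =>
      ∃ (o : Fin n → Bool) (p : Fin n → ℕ), sv 576 (Pool.PG.cmp (dgame o p E)) = []).card : ℕ) : ℝ)
      ≤ ((4 * 2 ^ (n * n) : ℕ) : ℝ) := Nat.cast_le.2 h4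
    rw [Nat.cast_mul, Nat.cast_mul, Nat.cast_pow, Nat.cast_ofNat, Nat.cast_ofNat] at h6
    exact h6

end Pool.DPG
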